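import Mathlib
import Pool.Agent.V1128.Semi.Defs
import Pool.Agent.V1128.Semi.Irr
import Pool.Agent.V1128.Semi.Auto

/-!
A finite semi-rational group whose absolute centre contains an element of order three.
-/

set_option autoImplicit false

namespace Pool.Agent.Results.MP_82b5c7_al.AbsoluteCenterOrderThree

open Pool.Agent.V1128.Semi

theorem result : ∃ (G : Type) (_ : Group G) (_ : Fintype G),
    SemiRational G ∧ ∃ z ∈ absoluteCenter G, orderOf z = 3 := by
  refine ⟨Hei form, inferInstance, inferInstance, semiRational form form_self,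
    ⟨0, Pi.single 5 1⟩, fun α => auto_fixed α, ?_⟩
  have : Fact (Nat.Prime 3) := ⟨Nat.prime_three⟩
  apply orderOf_eq_prime
  · have h1 : (⟨0, Pi.single 5 1⟩ : Hei form) ^ 3 =
        ⟨0, Pi.single 5 1 + Pi.single 5 1 + Pi.single 5 1⟩ := by
      rw [pow_succ, pow_two]
      apply Hei.ext <;> simp
    rw [h1, Hei.three_smul']
    rfl
  · intro h
    have h1 := congrFun (congrArg Hei.w h) 5
    simp at h1

end Pool.Agent.Results.MP_82b5c7_al.AbsoluteCenterOrderThree
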